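import Mathlib

/-!
# Project RT (MP_f3997c_co): a lower bound 1/8 for the Ramsey-Turan density of `K_6`

Definitions.
-/

set_option autoImplicit false

open Finset

namespace Pool.Agent.Helper73.RT

/-- The unordered pairs of distinct vertices, one in `J` and the other in `J'`. -/
def pairsOf {N : ℕ} (J J' : Finset (Fin N)) : Finset (Sym2 (Fin N)) :=
  ((J ×ˢ J').filter fun p => p.1 ≠ p.2).image fun p => s(p.1, p.2)

/-- The graph of the pairs whose colour is less than `q`. -/
def colGraph {N Q : ℕ} (f : Sym2 (Fin N) → Fin Q) (q : ℕ) : SimpleGraph (Fin N) where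
  Adj x y := x ≠ y ∧ (f s(x, y)).val < q
  symm := ⟨fun x y h => ⟨h.1.symm, by rw [Sym2.eq_swap]; exact h.2⟩⟩
  loopless := ⟨fun _ h => h.1 rfl⟩

/-- A family of vertex sets is edge-disjoint if two members never share a pair. -/
def EdgeDisj {N : ℕ} (D : Finset (Finset (Fin N))) : Prop :=
  ∀ K ∈ D, ∀ K' ∈ D, K ≠ K' → Disjoint (pairsOf K K) (pairsOf K' K')

/-- `t < 2 ^ ell t`. -/
def ell (t : ℕ) : ℕ := Nat.log 2 t + 1

/-- Every set of `aT t` vertices contains a red edge. -/
def aT (t : ℕ) : ℕ := 43200 * ell t * t ^ 20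

/-- Any two sets of `bT t` vertices are joined by a blue edge. -/
def bT (t : ℕ) : ℕ := 720 * ell t * t ^ 19

/-- Half of the bound for the independence number on one side. -/
def q1T (t : ℕ) : ℕ := 4320000 * ell t ^ 2 * t ^ 20

/-- The size of a heavy cell. -/
def q2T (t H : ℕ) : ℕ := 4320000 * ell t ^ 2 * t ^ 19 * H

end Pool.Agent.Helper73.RT
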