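import Pool.Agent.Helper73.RT.Defs
import Pool.Agent.Helper66.RT.Dens
import Pool.Agent.Helper84.RT.Alloc
import Pool.Agent.Helper46.RT.EdgeCount
import Pool.Agent.Helper92.RT.Params
import Pool.Agent.Helper28.RT.StructureOf
import Pool.Agent.Helper30.RT.Theta

/-!
# Project RT: assembly
-/

set_option autoImplicit false

open Finset

namespace Pool.Agent.Helper73.RT

/-- geometric fact -/
theorem geo_aux (s k : ℕ) (M : ℝ) (i i' j j' : Fin k → Fin (2 * s + 1))
    (h1 : RTIso.nsq s k i i' < 4 * M) (h2 : RTIso.nsq s k j j' < 4 * M)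
    (a : M < RTIso.ip s k i j) (b : M < RTIso.ip s k i j') (c : M < RTIso.ip s k i' j)
    (d : M < RTIso.ip s k i' j') : False := by
  unfold RTIso.nsq at h1 h2
  unfold RTIso.ip at a b c d
  have hs : ∑ l, (RTIso.val s (i l) + RTIso.val s (i' l)) *
        (RTIso.val s (j l) + RTIso.val s (j' l)) =
      ∑ l, RTIso.val s (i l) * RTIso.val s (j l) + ∑ l, RTIso.val s (i l) * RTIso.val s (j' l) +
      ∑ l, RTIso.val s (i' l) * RTIso.val s (j l) +
      ∑ l, RTIso.val s (i' l) * RTIso.val s (j' l) := by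
    rw [← Finset.sum_add_distrib, ← Finset.sum_add_distrib, ← Finset.sum_add_distrib]
    exact Finset.sum_congr rfl fun l _ => by ring
  have h4 : 4 * M < ∑ l, (RTIso.val s (i l) + RTIso.val s (i' l)) *
        (RTIso.val s (j l) + RTIso.val s (j' l)) := by rw [hs]; linarith
  have hpos : 0 ≤ ∑ l, (RTIso.val s (i l) + RTIso.val s (i' l)) ^ 2 :=
    Finset.sum_nonneg fun _ _ => sq_nonneg _
  have hpos' : 0 ≤ ∑ l, (RTIso.val s (j l) + RTIso.val s (j' l)) ^ 2 :=
    Finset.sum_nonneg fun _ _ => sq_nonneg _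
  have hM : 0 < 4 * M := lt_of_le_of_lt hpos h1
  have hcs := Finset.sum_mul_sq_le_sq_mul_sq Finset.univ
    (fun l => RTIso.val s (i l) + RTIso.val s (i' l))
    (fun l => RTIso.val s (j l) + RTIso.val s (j' l))
  have : (∑ l, (RTIso.val s (i l) + RTIso.val s (i' l)) ^ 2) *
      (∑ l, (RTIso.val s (j l) + RTIso.val s (j' l)) ^ 2) ≤ (4 * M) * (4 * M) :=
    mul_le_mul h1.le h2.le hpos' hM.le
  nlinarith

/-- RT-H. The result (needs everything). -/
theorem rt_main : ∀ ε : ℝ, 0 < ε → ∃ c : ℝ, 0 < c ∧ ∀ᶠ n : ℕ in Filter.atTop,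
    ∃ G : SimpleGraph (Fin n), G.CliqueFree 6 ∧
      (G.indepNum : ℝ) ≤
        Real.sqrt n * Real.exp (-(c * Real.sqrt (Real.log n / Real.log (Real.log n)))) ∧
      (1 / 8 - ε) * (n : ℝ) ^ 2 ≤ (G.edgeSet.ncard : ℝ) := by
  intro ε hε
  obtain ⟨c, hc, hev⟩ := parameters (ε / 400) (ε / 2) (by positivity) (by positivity)
  refine ⟨c, hc, ?_⟩
  filter_upwards [hev] with n hn
  obtain ⟨k, s, t, H, hk, hs, hks, hkε, ht, hH, hnt, hPt, hFt, hq, hPn⟩ := hn
  set th : ℝ := ε / 400 with hth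
  have hth0 : 0 < th := by positivity
  have hcardP : Fintype.card (Fin k → Fin (2 * s + 1)) = (2 * s + 1) ^ k := by simp
  have hγ0 : ∀ i : Fin k → Fin (2 * s + 1), 0 ≤ RTIso.pw s s k i :=
    fun i => (RTIso.pw_pos _ _ _ _).le
  have hγ1 : ∑ i : Fin k → Fin (2 * s + 1), RTIso.pw s s k i = 1 := RTIso.sum_pw _ _ _
  set M : ℝ := th * (s : ℝ) ^ 2 * Real.sqrt k with hM
  have hM0 : 0 ≤ M := by positivity
  -- labels
  have hg0 : ∀ i : Bool × (Fin k → Fin (2 * s + 1)), 0 ≤ RTIso.pw s s k i.2 / 2 :=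
    fun i => by have := hγ0 i.2; positivity
  have hg1 : ∑ i : Bool × (Fin k → Fin (2 * s + 1)), RTIso.pw s s k i.2 / 2 = 1 := by
    rw [Fintype.sum_prod_type]
    simp only [Fintype.sum_bool]
    rw [← Finset.sum_div, hγ1]; norm_num
  obtain ⟨lab, hlab1, hlab2⟩ := alloc n
    (fun i : Bool × (Fin k → Fin (2 * s + 1)) => RTIso.pw s s k i.2 / 2) hg0 hg1
  have hnsq : ∀ i j : Fin k → Fin (2 * s + 1), RTIso.nsq s k i j = RTIso.nsq s k j i := by
    intro i j
    unfold RTIso.nsq
    exact Finset.sum_congr rfl fun l _ => by ring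
  have hip : ∀ i j : Fin k → Fin (2 * s + 1), RTIso.ip s k i j = RTIso.ip s k j i := by
    intro i j
    unfold RTIso.ip
    exact Finset.sum_congr rfl fun l _ => by ring
  obtain ⟨G, hG6, hGi, hGX⟩ := structure_main_of
    (fun i j : Fin k → Fin (2 * s + 1) => RTIso.nsq s k i j < 4 * M)
    (fun i j : Fin k → Fin (2 * s + 1) => M < RTIso.ip s k i j) n t H lab
    (by
      intro i j h
      rwa [hnsq j i])
    (by
      intro i j h
      rwa [hip j i])
    (by
      intro i i' j j' h1 h2 a b c' d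
      exact geo_aux s k M i i' j j' h1 h2 a b c' d)
    (by
      intro F hF b
      have h2 : ∑ i ∈ F, RTIso.pw s s k i ≤ Real.exp (-(th * Real.sqrt k) / 4) := by
        refine RTIso.no_antipodal s hs k th hth0 hks F ?_
        intro x hx y hy
        have := not_lt.1 (hF x hx y hy)
        have h4 : 4 * M = 4 * th * (s : ℝ) ^ 2 * Real.sqrt k := by rw [hM]; ring
        rwa [h4] at this
      have h3 := hlab2 (({b} : Finset Bool) ×ˢ F)
      have h4 : ∑ i ∈ ({b} : Finset Bool) ×ˢ F, RTIso.pw s s k i.2 / 2 =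
          (∑ i ∈ F, RTIso.pw s s k i) / 2 := by
        rw [Finset.sum_product, Finset.sum_singleton, Finset.sum_div]
      have h5 : (Finset.univ.filter fun v => (lab v).1 = b ∧ (lab v).2 ∈ F) =
          Finset.univ.filter fun v => lab v ∈ (({b} : Finset Bool) ×ˢ F) := by
        ext v
        simp only [Finset.mem_filter, Finset.mem_univ, true_and, Finset.mem_product,
          Finset.mem_singleton]
      have h6 : (Fintype.card (Bool × (Fin k → Fin (2 * s + 1))) : ℝ) =
          2 * (((2 * s + 1) ^ k : ℕ) : ℝ) := by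
        rw [Fintype.card_prod, hcardP]; push_cast; simp
      rw [h4, h6] at h3
      have h7 : ((Finset.univ.filter fun v => (lab v).1 = b ∧ (lab v).2 ∈ F).card : ℝ) ≤
          ((t ^ 40 : ℕ) : ℝ) := by
        rw [h5]
        refine h3.trans (le_trans ?_ hFt)
        have hn0 : (0 : ℝ) ≤ n := Nat.cast_nonneg n
        have : (n : ℝ) * ((∑ i ∈ F, RTIso.pw s s k i) / 2) ≤
            (n : ℝ) / 2 * Real.exp (-(th * Real.sqrt k) / 4) := by
          have := mul_le_mul_of_nonneg_left h2 hn0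
          linarith
        linarith
      exact_mod_cast h7)
    ht hH hnt (by rw [hcardP]; exact hPt) (theta_exists t ht)
  refine ⟨G, hG6, ?_, ?_⟩
  · obtain ⟨I, hI⟩ := G.exists_isNIndepSet_indepNum
    have h1 := hGi I hI.isIndepSet
    rw [hI.card_eq] at h1
    calc (G.indepNum : ℝ) ≤ ((4 * q1T t : ℕ) : ℝ) := by exact_mod_cast h1.le
      _ ≤ _ := hq
  · classical
    have hsb := RTIso.small_ball s hs k hk th hth0.le
    have hde := RTIso.density s s k M hM0
    have hδ : 1 / 2 - ε ≤ ∑ p ∈ univ.filter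
        (fun p : (Fin k → Fin (2 * s + 1)) × (Fin k → Fin (2 * s + 1)) =>
          M < RTIso.ip s k p.1 p.2), RTIso.pw s s k p.1 * RTIso.pw s s k p.2 := by
      rw [Finset.sum_filter, Fintype.sum_prod_type]
      simp only
      rw [hde]
      have h160 : 160 * th = 2 / 5 * ε := by rw [hth]; ring
      rw [← hM] at hsb
      linarith
    have h2 := edge_count n lab (fun i => RTIso.pw s s k i) hγ0 hγ1
      (by
        intro b i
        have := hlab1 (b, i)
        simp only at this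
        have h3 : (n : ℝ) * RTIso.pw s s k i / 2 - 1 = n * (RTIso.pw s s k i / 2) - 1 := by ring
        rw [h3]; exact this)
      (fun i j : Fin k → Fin (2 * s + 1) => M < RTIso.ip s k i j) G hGX (1 / 2 - ε) hδ
    rw [hcardP] at h2
    refine le_trans ?_ h2
    have hn0 : (0 : ℝ) ≤ n := Nat.cast_nonneg n
    have := mul_le_mul_of_nonneg_left hPn hn0
    nlinarith [sq_nonneg (n : ℝ)]

end Pool.Agent.Helper73.RT
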